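import Pool.Agent.Q234.PE.Stm
import Pool.Agent.Q299.PL.BL

/-!
# Project PE of helper234: job SP, every block vector gives a combination of words
-/

set_option autoImplicit false

open scoped BigOperators Matrix
open Finset Pool.Agent.TH235.PP Pool.Agent.Q234.PL Pool.Agent.Q234.PE

namespace Pool.Agent.Q65.PE.SP

section ring

variable {N m : ℕ}

/-- the embedding of the block of the ring -/
def emb (hm : m ≤ N + 1) : Fin m → Fin (N + 1) := fun i => ⟨i, by omega⟩

theorem emb_inj (hm : m ≤ N + 1) : Function.Injective (emb hm) := by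
  intro a b h
  have h1 : ((emb hm a : Fin (N + 1)) : ℕ) = (emb hm b : Fin (N + 1)) := congrArg Fin.val h
  exact Fin.ext h1

theorem iota_loc (hm : m ≤ N + 1) (W : Matrix (Fin m → Fin 2) (Fin m → Fin 2) ℂ) :
    Pool.Agent.Q299.PL.BL.iota hm W = loc (emb hm) W := by
  ext s t
  rw [Pool.Agent.Q299.PL.BL.iota_apply]
  unfold Pool.Agent.Q234.PE.loc
  have h : (∀ i : Fin (N + 1), m ≤ (i : ℕ) → t i = s i) ↔
      ∀ i, (∀ j, emb hm j ≠ i) → s i = t i := by
    constructor
    · intro h i hi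
      refine (h i ?_).symm
      by_contra hlt
      exact hi ⟨i, by omega⟩ (Fin.ext rfl)
    · intro h i hi
      refine (h i fun j hj => ?_).symm
      have h1 : (j : ℕ) = (i : ℕ) := congrArg Fin.val hj
      have := j.2
      omega
  by_cases h1 : ∀ i : Fin (N + 1), m ≤ (i : ℕ) → t i = s i
  · rw [if_pos h1, if_pos (h.1 h1)]
    rfl
  · rw [if_neg h1, if_neg fun h2 => h1 (h.2 h2)]

theorem gm_loc (hm : m ≤ N + 1) (j : ℕ) (hj : j < 2 * m) :
    ∃ W : Matrix (Fin m → Fin 2) (Fin m → Fin 2) ℂ, (gm j : Matrix (Cf N) (Cf N) ℂ) =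
      loc (emb hm) W := by
  have h1 : j / 2 < m := by omega
  have h2 : (Fin.ofNat (N + 1) (j / 2)) = (⟨j / 2, by omega⟩ : Fin (N + 1)) :=
    Fin.ext (Nat.mod_eq_of_lt (by omega))
  unfold gm
  split_ifs
  · obtain ⟨W, -, hW⟩ := Pool.Agent.Q299.PL.BL.Ao_isU hm ⟨j / 2, h1⟩
    exact ⟨W, by rw [h2, ← iota_loc hm, ← hW]⟩
  · obtain ⟨W, -, hW⟩ := Pool.Agent.Q299.PL.BL.Bo_isU hm ⟨j / 2, h1⟩
    exact ⟨W, by rw [h2, ← iota_loc hm, ← hW]⟩

theorem cast_emb (hm : m ≤ N + 1) (j : Fin m) : ((j : ℕ) : ZMod (N + 1)) = emb hm j := by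
  refine ZMod.val_injective (N + 1) ?_
  rw [ZMod.val_natCast_of_lt (by have := j.2; omega)]
  rfl

theorem blk_inj (hm : m ≤ N + 1) : Function.Injective (blk N m) := by
  rintro ⟨a, b⟩ ⟨c, d⟩ h
  have h1 : ((a : ℕ) : ZMod (N + 1)) = ((c : ℕ) : ZMod (N + 1)) := congrArg Prod.fst h
  have h2 : ((b : ℕ) : ZMod (N + 1)) = ((d : ℕ) : ZMod (N + 1)) := congrArg Prod.snd h
  rw [cast_emb hm, cast_emb hm] at h1 h2
  rw [emb_inj hm h1, emb_inj hm h2]

theorem bm_loc (hm : m ≤ N + 1) (k : Fin (m * (2 * m))) :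
    ∃ W : Matrix (Fin m × Fin m → Fin 2) (Fin m × Fin m → Fin 2) ℂ,
      bm N m k = loc (blk N m) W := by
  have hm0 : 0 < m := by
    rcases Nat.eq_zero_or_pos m with h | h
    · subst h
      exact absurd k.2 (by simp)
    · exact h
  have h1 : (k : ℕ) % (2 * m) < 2 * m := Nat.mod_lt _ (by omega)
  have h2 : (k : ℕ) / (2 * m) < m := Nat.div_lt_of_lt_mul (by
    have := k.2
    rw [mul_comm (2 * m) m]
    exact this)
  obtain ⟨W, hW⟩ := gm_loc (N := N) hm _ h1
  refine ⟨loc (fun j : Fin m => ((j, ⟨(k : ℕ) / (2 * m), h2⟩) : Fin m × Fin m)) W, ?_⟩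
  rw [loc_loc (blk_inj hm)]
  unfold bm
  rw [hW, loc_loc (row_inj _)]
  congr 1
  funext j
  unfold row blk
  rw [cast_emb hm j]

end ring

theorem word_loc {P ι : Type} [Fintype P] [DecidableEq P] [Fintype ι] [DecidableEq ι] {e : P → ι}
    (he : Function.Injective e) {K : ℕ} (γ : Fin K → Matrix (ι → Fin 2) (ι → Fin 2) ℂ)
    (hγ : ∀ k, ∃ W, γ k = loc e W) (s : Fin K → Bool) : ∃ W, word γ s = loc e W := by
  unfold word
  have : ∀ l : List (Matrix (ι → Fin 2) (ι → Fin 2) ℂ), (∀ M ∈ l, ∃ W, M = loc e W) →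
      ∃ W, l.prod = loc e W := by
    intro l
    induction l with
    | nil => intro _; exact ⟨1, by rw [List.prod_nil, loc_one he]⟩
    | cons a l ih =>
      intro h
      obtain ⟨W1, h1⟩ := h a (by simp)
      obtain ⟨W2, h2⟩ := ih fun M hM => h M (by simp [hM])
      exact ⟨W1 * W2, by rw [List.prod_cons, h1, h2, loc_mul he]⟩
  refine this _ fun M hM => ?_
  rw [List.mem_ofFn] at hM
  obtain ⟨k, rfl⟩ := hM
  split_ifs
  · exact hγ k
  · exact ⟨1, (loc_one he).symm⟩

theorem put_tpaste {N m : ℕ} (hm : m ≤ N + 1) (q : Fin m × Fin m → Fin 2)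
    (s : Site (N + 1) → Fin 2) : put (blk N m) q s = tpaste q s := by
  refine put_ext (e := blk N m) (fun j => ?_) fun i hi => ?_
  · rw [put_apply (blk_inj hm)]
    unfold tpaste blk
    have h1 : (((j.1 : ℕ) : ZMod (N + 1))).val = j.1 :=
      ZMod.val_natCast_of_lt (by have := j.1.2; omega)
    have h2 : (((j.2 : ℕ) : ZMod (N + 1))).val = j.2 :=
      ZMod.val_natCast_of_lt (by have := j.2.2; omega)
    rw [dif_pos ⟨by rw [h1]; exact j.1.2, by rw [h2]; exact j.2.2⟩]
    congr 1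
    exact Prod.ext (Fin.ext h1.symm) (Fin.ext h2.symm)
  · rw [put_off q s i hi]
    unfold tpaste
    rw [dif_neg]
    rintro ⟨h1, h2⟩
    refine hi (⟨i.1.val, h1⟩, ⟨i.2.val, h2⟩) ?_
    unfold blk
    exact Prod.ext (ZMod.natCast_zmod_val i.1) (ZMod.natCast_zmod_val i.2)

theorem main : Span := by
  intro N m φ₀ hm hc v hv
  have he := blk_inj (N := N) hm
  choose w hw using fun s : Fin (m * (2 * m)) → Bool => word_loc he (bm N m) (bm_loc hm) s
  -- the linear map
  let Θ : ((Fin (m * (2 * m)) → Bool) → ℂ) →ₗ[ℂ]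
      Matrix (Fin m × Fin m → Fin 2) (Fin m × Fin m → Fin 2) ℂ :=
    { toFun := fun c => ∑ s, c s • w s
      map_add' := fun c c' => by
        simp only [Pi.add_apply, add_smul]
        exact sum_add_distrib
      map_smul' := fun a c => by
        simp only [Pi.smul_apply, smul_eq_mul, RingHom.id_apply, smul_sum, smul_smul] }
  have hΘι : ∀ c, (∑ s, c s • word (bm N m) s) = loc (blk N m) (Θ c) := by
    intro c
    show _ = loc (blk N m) (∑ s, c s • w s)
    rw [loc_sum]
    refine sum_congr rfl fun s _ => ?_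
    rw [loc_smul, ← hw]
  have hinj : Function.Injective Θ := by
    rw [← LinearMap.ker_eq_bot, LinearMap.ker_eq_bot']
    intro c hc0
    refine hc c ?_
    rw [hΘι, hc0, loc_zero, Matrix.zero_mulVec]
  have hsurj : Function.Surjective Θ := by
    refine (LinearMap.injective_iff_surjective_of_finrank_eq_finrank ?_).1 hinj
    rw [Module.finrank_fintype_fun_eq_card, Module.finrank_matrix]
    simp only [Fintype.card_pi, Fintype.card_bool, prod_const, card_univ, Fintype.card_fin,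
      Fintype.card_prod, Module.finrank_self, mul_one]
    rw [← pow_add]
    congr 1
    ring
  set p₀ : Fin m × Fin m → Fin 2 := fun _ => 0 with hp₀
  obtain ⟨c, hcW⟩ := hsurj (Matrix.of fun a b => if a = p₀ then v b else 0)
  refine ⟨c, ?_, ?_⟩
  · intro hc0
    rw [hc0, map_zero] at hcW
    apply hv
    funext b
    have h1 := congrFun (congrFun hcW p₀) b
    rw [Matrix.of_apply, if_pos rfl] at h1
    exact h1.symm
  · intro χ hχ
    rw [hΘι, hcW]
    funext s
    rw [loc_mulVec he, mv]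
    have h1 : ∀ q : Fin m × Fin m → Fin 2, χ (put (blk N m) q s) = χ (tpaste q s) := fun q => by
      rw [put_tpaste hm]
    simp only [h1, Matrix.of_apply, Pi.zero_apply]
    by_cases h2 : (fun j => s (blk N m j)) = p₀
    · simp only [if_pos h2]
      exact hχ s
    · simp only [if_neg h2, zero_mul, sum_const_zero]

end Pool.Agent.Q65.PE.SP

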